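import Mathlib
import Pool.Agent.D0H9.BR.Main

/-!
# Colourings of `[n]` with fewer monochromatic `k`-term progressions than random colourings

For all `k ≥ 3` and `r ≥ 2` there are `r`-colourings of `[n]` with `δ n² + O(n)` monochromatic
`k`-term arithmetic progressions, where `δ` is smaller than the random rate
`1 / (2 (k - 1) r^(k - 1))`.

Proof.  Cut `[n]` into `B` blocks of equal length and colour each block by one colour, chosen at
random and independently: the colours `0` and `1` have the probabilities `1/r + ε g` and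
`1/r - ε g`, the other colours `1/r`, where the function `g` of the block is `-x₀` on a short
interval near the position `P`, `1` on an interval of the same length just before `(k - 1) P`, and
`-1` on an interval just after `(k - 1) P`; all three are close to the left end of `[n]`.  The
second order term of the expected number is `∑ g(x_j) g(x_l)` over all progressions and all
`j < l`.  It is negative, as a progression whose term with index `1` is near `P` and whose last
term is just after `(k - 1) P` does not fit into `[n]`, whereas those with the last term just before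
`(k - 1) P` do.  A block colouring has `δ n² + O(n)` monochromatic progressions (scaling lemma).
-/

set_option autoImplicit false

namespace Pool.Agent.Results.MP_6bff71_co.BeatsRandom

open Finset

/-- The set of the `k`-term arithmetic progressions in `[n] = {1, …, n}`: the sets
`{a, a + d, …, a + (k - 1) d}` with `a ≥ 1`, `d ≥ 1` and `a + (k - 1) d ≤ n`. -/
def progressions (k n : ℕ) : Set (Finset ℕ) :=
  {S | ∃ a d : ℕ, 1 ≤ a ∧ 1 ≤ d ∧ a + (k - 1) * d ≤ n ∧ S = (range k).image (fun j => a + j * d)}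

/-- The number `M_k(χ)` of the monochromatic `k`-term arithmetic progressions in `[n]` of the
colouring `χ` (only its values on `[n]` matter). -/
noncomputable def numMono {r : ℕ} (k n : ℕ) (χ : ℕ → Fin r) : ℕ :=
  {S ∈ progressions k n | ∀ x ∈ S, ∀ y ∈ S, χ x = χ y}.ncard

/-- the bijection between the progressions and the pairs `(a - 1, d)` -/
theorem numMono_eq {r : ℕ} {k : ℕ} (hk : 2 ≤ k) (n : ℕ) (χ : ℕ → Fin r) :
    numMono k n χ = Pool.Agent.D0H9.BR.mono k n (fun x => χ (x + 1)) := by
  classical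
  have h : {S ∈ progressions k n | ∀ x ∈ S, ∀ y ∈ S, χ x = χ y} =
      (fun p : ℕ × ℕ => (range k).image (fun j => p.1 + 1 + j * p.2)) ''
        (Pool.Agent.D0H9.BR.monoSet k n (fun x => χ (x + 1)) : Set (ℕ × ℕ)) := by
    ext S
    simp only [progressions, Set.mem_image, mem_coe, Pool.Agent.D0H9.BR.mem_monoSet]
    constructor
    · rintro ⟨⟨a, d, ha, hd, hn, rfl⟩, hmono⟩
      have h1 : d ≤ (k - 1) * d := Nat.le_mul_of_pos_left _ (by omega)
      refine ⟨(a - 1, d), ⟨⟨⟨by dsimp only; omega, by dsimp only; omega⟩, hd,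
        by dsimp only; omega⟩, fun j hj => ?_⟩, ?_⟩
      · have h2 := hmono (a + j * d) (mem_image.2 ⟨j, mem_range.2 hj, rfl⟩) (a + 0 * d)
          (mem_image.2 ⟨0, mem_range.2 (by omega), rfl⟩)
        have e1 : a - 1 + j * d + 1 = a + j * d := by omega
        have e2 : a - 1 + 1 = a + 0 * d := by omega
        dsimp only
        rw [e1, e2]
        exact h2
      · dsimp only
        have e2 : a - 1 + 1 = a := by omega
        rw [e2]
    · rintro ⟨⟨a, d⟩, ⟨⟨⟨_, _⟩, hd, hn⟩, hmono⟩, rfl⟩
      refine ⟨⟨a + 1, d, by omega, hd, by dsimp only at hn; omega, rfl⟩, ?_⟩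
      intro x hx y hy
      simp only [mem_image, mem_range] at hx hy
      obtain ⟨i, hi, rfl⟩ := hx
      obtain ⟨j, hj, rfl⟩ := hy
      have h1 := hmono i hi
      have h2 := hmono j hj
      dsimp only at h1 h2
      have e1 : a + 1 + i * d = a + i * d + 1 := by omega
      have e2 : a + 1 + j * d = a + j * d + 1 := by omega
      rw [e1, e2, h1, h2]
  rw [numMono, h, Set.ncard_image_of_injOn, Set.ncard_coe_finset, Pool.Agent.D0H9.BR.mono]
  rintro ⟨a, d⟩ _ ⟨a', d'⟩ _ heq
  dsimp only at heq
  have m1 : a + 1 + 0 * d ∈ (range k).image (fun j => a' + 1 + j * d') := by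
    rw [← heq]
    exact mem_image.2 ⟨0, mem_range.2 (by omega), rfl⟩
  have m2 : a' + 1 + 0 * d' ∈ (range k).image (fun j => a + 1 + j * d) := by
    rw [heq]
    exact mem_image.2 ⟨0, mem_range.2 (by omega), rfl⟩
  have m3 : a + 1 + (k - 1) * d ∈ (range k).image (fun j => a' + 1 + j * d') := by
    rw [← heq]
    exact mem_image.2 ⟨k - 1, mem_range.2 (by omega), rfl⟩
  have m4 : a' + 1 + (k - 1) * d' ∈ (range k).image (fun j => a + 1 + j * d) := by
    rw [heq]
    exact mem_image.2 ⟨k - 1, mem_range.2 (by omega), rfl⟩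
  simp only [mem_image, mem_range] at m1 m2 m3 m4
  obtain ⟨i1, _, m1⟩ := m1
  obtain ⟨i2, _, m2⟩ := m2
  obtain ⟨i3, h3, m3⟩ := m3
  obtain ⟨i4, h4, m4⟩ := m4
  have haa : a = a' := by omega
  have h5 : i3 * d' ≤ (k - 1) * d' := Nat.mul_le_mul_right _ (by omega)
  have h6 : i4 * d ≤ (k - 1) * d := Nat.mul_le_mul_right _ (by omega)
  have h7 : (k - 1) * d = (k - 1) * d' := by omega
  have hdd : d = d' := Nat.eq_of_mul_eq_mul_left (by omega) h7
  rw [haa, hdd]

/-- For all `k ≥ 3` and `r ≥ 2` there are a constant `δ < 1 / (2 (k - 1) r ^ (k - 1))` and, for each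
`n`, an `r`-colouring of `[n]` with `δ n ^ 2 + O(n)` monochromatic `k`-term progressions. -/
theorem result (k r : ℕ) (hk : 3 ≤ k) (hr : 2 ≤ r) :
    ∃ δ : ℝ, δ < 1 / (2 * ((k : ℝ) - 1) * (r : ℝ) ^ (k - 1)) ∧
      ∃ C : ℝ, ∀ n : ℕ, ∃ χ : ℕ → Fin r, |(numMono k n χ : ℝ) - δ * (n : ℝ) ^ 2| ≤ C * n := by
  obtain ⟨B, c, δ, hB, h1, h2⟩ := Pool.Agent.D0H9.BR.exists_block hk hr
  obtain ⟨C, hC⟩ := Pool.Agent.D0H9.BR.all_n (k := k) (by omega) hB c δ
    (Pool.Agent.D0H9.BR.scaleConst k B)
    (by unfold Pool.Agent.D0H9.BR.scaleConst; positivity) h1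
  refine ⟨δ / (B : ℝ) ^ 2, h2, C, fun n => ?_⟩
  obtain ⟨χ, hχ⟩ := hC n
  refine ⟨fun x => χ (x - 1), ?_⟩
  rw [numMono_eq (by omega)]
  have : (fun x => (fun x => χ (x - 1)) (x + 1)) = χ := by
    funext x
    simp
  rw [this]
  exact hχ

end Pool.Agent.Results.MP_6bff71_co.BeatsRandom
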